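import Pool.Agent.H66.NF.U
import Pool.Agent.H61.NF.IRL2

/-!
# NF, CPD and CPF: the completions of a number field
-/

set_option autoImplicit false
set_option linter.unusedSectionVars false
set_option linter.style.haveILetI false

namespace Pool.NF

open Polynomial Matrix NumberField IsDedekindDomain Pool.HYP Pool.TOW Pool.AVS Pool.T1 Pool.PRK

namespace CPD63

variable {K : Type} [Field K] [NumberField K] {L : Type} [Field L] {O : ValuationSubring L}
  {ι : K →+* L}

/-- The map of the integers. -/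
noncomputable def ph (O : ValuationSubring L) (ι : K →+* L) : 𝓞 K →+* O :=
  (ι.comp (algebraMap (𝓞 K) K)).codRestrict O (fun a => IRL61.int_mem a)

lemma coe_ph (a : 𝓞 K) : ((ph O ι a : O) : L) = ι (algebraMap (𝓞 K) K a) := rfl

lemma exists_unif (hC : Cpl K L O ι) : ∃ ϖ : O, Irreducible ϖ := by
  have := hC.dvr
  exact IsDiscreteValuationRing.exists_irreducible O

/-- Density: every element of `O` is congruent to an element of `K`. -/
lemma near (hC : Cpl K L O ι) (z : O) : ∃ (x : K) (hx : ι x ∈ O),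
    IsLocalRing.residue O z = IsLocalRing.residue O ⟨ι x, hx⟩ := by
  obtain ⟨ϖ, hϖ⟩ := exists_unif hC
  have h0 : (ϖ : L) ≠ 0 := fun h => hϖ.ne_zero (Subtype.ext h)
  obtain ⟨x, hx⟩ := hC.dense (z : L) ϖ h0
  have h1 : ι x = (z : L) - ϖ * (((z : L) - ι x) / ϖ) := by
    rw [mul_div_cancel₀ _ h0]
    ring
  have h2 : ι x ∈ O := by
    rw [h1]
    exact sub_mem z.2 (mul_mem ϖ.2 hx)
  refine ⟨x, h2, ?_⟩
  have h3 : (⟨ι x, h2⟩ : O) = z - ϖ * ⟨_, hx⟩ := Subtype.ext h1
  have h4 : IsLocalRing.residue O ϖ = 0 := by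
    rw [IsLocalRing.residue_eq_zero_iff, IsLocalRing.mem_maximalIdeal]
    exact hϖ.not_isUnit
  rw [h3, map_sub, map_mul, h4, zero_mul, sub_zero]

end CPD63

open CPD63 in
/-- **CPD.** -/
theorem cpd : CPDStmt := by
  intro K _ _ L _ O ι hC
  have hmem : ∀ a : 𝓞 K, a ∈ (IsLocalRing.maximalIdeal O).comap (ph O ι) ↔
      O.valuation (ι (algebraMap (𝓞 K) K a)) < 1 := by
    intro a
    rw [Ideal.mem_comap, ← coe_ph (O := O) (ι := ι) a]
    exact ValuationSubring.valuation_lt_one_iff O (ph O ι a)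
  have hv1 : ∀ m : 𝓞 K, m ∉ (IsLocalRing.maximalIdeal O).comap (ph O ι) →
      O.valuation (ι (algebraMap (𝓞 K) K m)) = 1 := by
    intro m hm
    apply le_antisymm
    · exact (ValuationSubring.valuation_le_one_iff O _).2 (IRL61.int_mem m)
    · exact not_lt.1 fun h => hm ((hmem m).2 h)
  -- elements which are regular are in `O`
  have hback : ∀ (x : K) (m a : 𝓞 K), m ∉ (IsLocalRing.maximalIdeal O).comap (ph O ι) →
      algebraMap (𝓞 K) K m * x = algebraMap (𝓞 K) K a → ι x ∈ O := by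
    intro x m a hm hmx
    have h1 := hv1 m hm
    have h2 : O.valuation (ι (algebraMap (𝓞 K) K m * x)) ≤ 1 := by
      rw [hmx]
      exact (ValuationSubring.valuation_le_one_iff O _).2 (IRL61.int_mem a)
    rw [map_mul, map_mul, h1, one_mul] at h2
    exact (ValuationSubring.valuation_le_one_iff O _).1 h2
  have hne : (IsLocalRing.maximalIdeal O).comap (ph O ι) ≠ ⊥ := by
    intro h
    obtain ⟨ϖ, hϖ⟩ := exists_unif hC
    have h0 : (ϖ : L) ≠ 0 := fun h => hϖ.ne_zero (Subtype.ext h)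
    obtain ⟨x, hx⟩ := hC.dense (ϖ : L)⁻¹ 1 one_ne_zero
    have hxO : ι x ∈ O := by
      obtain ⟨a, b, hb, hab⟩ := IsFractionRing.div_surjective (A := 𝓞 K) x
      have hb0 : b ≠ 0 := nonZeroDivisors.ne_zero hb
      refine hback x b a ?_ ?_
      · rw [h]
        exact hb0
      · rw [← hab, mul_div_cancel₀]
        exact (map_ne_zero_iff _ (IsFractionRing.injective (𝓞 K) K)).2 hb0
    have h1 : (ϖ : L)⁻¹ ∈ O := by
      have e : (ϖ : L)⁻¹ = ((ϖ : L)⁻¹ - ι x) / 1 + ι x := by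
        rw [div_one]
        ring
      rw [e]
      exact add_mem hx hxO
    apply hϖ.not_isUnit
    refine IsUnit.of_mul_eq_one (⟨_, h1⟩ : O) ?_
    apply Subtype.ext
    exact mul_inv_cancel₀ h0
  have hprime := Ideal.comap_isPrime (ph O ι) (IsLocalRing.maximalIdeal O)
  obtain ⟨P, hPdef⟩ : ∃ P : HeightOneSpectrum (𝓞 K),
      P.asIdeal = (IsLocalRing.maximalIdeal O).comap (ph O ι) := ⟨⟨_, hprime, hne⟩, rfl⟩
  rw [← hPdef] at hmem hv1 hback
  refine ⟨P, fun x => ⟨?_, ?_⟩, ?_⟩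
  · intro hx
    obtain ⟨ϖ, hϖ1, hϖ2⟩ :=
      Ideal.exists_mem_pow_notMem_pow_succ P.asIdeal P.ne_bot P.isPrime.ne_top 1
    rw [pow_one] at hϖ1
    obtain ⟨⟨OP, hOP, -, -⟩, -, -⟩ := vqb (𝓞 K) K P ϖ hϖ1 hϖ2
    by_contra hcon
    have h1 : x ∉ OP := by
      intro h
      apply hcon
      rw [← hOP]
      exact h
    have h3 : x⁻¹ ∈ OP := (OP.mem_or_inv_mem x).resolve_left h1
    have h4 : x⁻¹ ∈ RP K P := by rw [← hOP]; exact h3
    obtain ⟨m, hm, a, ha⟩ := h4
    have hx0 : x ≠ 0 := by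
      rintro rfl
      apply h1
      exact OP.zero_mem
    have hmx : algebraMap (𝓞 K) K m = algebraMap (𝓞 K) K a * x := by
      rw [← ha, mul_assoc, inv_mul_cancel₀ hx0, mul_one]
    by_cases haP : a ∈ P.asIdeal
    · have e1 := hv1 m hm
      rw [hmx, map_mul, map_mul] at e1
      have e2 := (hmem a).1 haP
      have e3 := (ValuationSubring.valuation_le_one_iff O _).2 hx
      have : O.valuation (ι (algebraMap (𝓞 K) K a)) * O.valuation (ι x) < 1 :=
        mul_lt_one_of_lt_of_le e2 e3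
      rw [e1] at this
      exact lt_irrefl _ this
    · exact hcon ⟨a, haP, m, hmx.symm⟩
  · rintro ⟨m, hm, a, ha⟩
    exact hback x m a hm ha
  · rw [hmem]
    have e : ι (algebraMap (𝓞 K) K 2) = 2 := by rw [map_ofNat, map_ofNat]
    rw [e, ← ValuationSubring.valuation_le_one_iff, map_inv₀, not_le]
    have h2 : (2 : L) ≠ 0 := by
      rw [← e]
      intro h
      rw [map_eq_zero] at h
      have h3 : (2 : 𝓞 K) = 0 := (IsFractionRing.injective (𝓞 K) K) (by rw [h, map_zero])
      exact two_ne_zero h3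
    have h0 : (0 : O.ValueGroup) < O.valuation 2 := by
      rw [zero_lt_iff]
      exact (Valuation.ne_zero_iff _).2 h2
    exact (one_lt_inv₀ h0).symm

open CPD63 in
/-- **CPF.** -/
theorem cpf : CPFStmt := by
  intro K _ _ P L _ O ι hC hO f ρ n hf hρ hz
  obtain ⟨hρm, hρd, hρi⟩ := hρ
  have hP : ∀ a ∈ P.asIdeal, ((IsLocalRing.residue O).comp (ph O ι)) a = 0 := by
    intro a ha
    rw [RingHom.comp_apply, IsLocalRing.residue_eq_zero_iff, IsLocalRing.mem_maximalIdeal]
    intro hu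
    obtain ⟨u, hu⟩ := hu
    have h1 : ι (algebraMap (𝓞 K) K a) * ((u⁻¹ : Oˣ) : L) = 1 := by
      rw [← coe_ph (O := O) (ι := ι), ← hu]
      exact congrArg Subtype.val (u.mul_inv)
    have h2 : ι (algebraMap (𝓞 K) K a)⁻¹ ∈ O := by
      rw [map_inv₀, inv_eq_of_mul_eq_one_right h1]
      exact ((u⁻¹ : Oˣ) : O).2
    obtain ⟨m, hm, b, hb⟩ := (hO _).1 h2
    have ha0 : algebraMap (𝓞 K) K a ≠ 0 := by
      intro h
      rw [h, map_zero, zero_mul] at h1
      exact zero_ne_one h1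
    apply hm
    have h3 : algebraMap (𝓞 K) K m = algebraMap (𝓞 K) K (b * a) := by
      rw [map_mul, ← hb, mul_assoc, inv_mul_cancel₀ ha0, mul_one]
    rw [(IsFractionRing.injective (𝓞 K) K) h3]
    exact P.asIdeal.mul_mem_left b ha
  set ψ := Ideal.Quotient.lift P.asIdeal ((IsLocalRing.residue O).comp (ph O ι)) hP with hψ
  have hψa : ∀ a : 𝓞 K, ψ (Ideal.Quotient.mk P.asIdeal a) =
      IsLocalRing.residue O (ph O ι a) := fun a => rfl
  letI := Ideal.Quotient.field P.asIdeal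
  have hb : Function.Bijective ψ := by
    refine ⟨ψ.injective, fun y => ?_⟩
    obtain ⟨z, rfl⟩ := IsLocalRing.residue_surjective y
    obtain ⟨x, hx, hxz⟩ := near hC z
    rw [hxz]
    obtain ⟨m, hm, a, ha⟩ := (hO x).1 hx
    have hm0 : Ideal.Quotient.mk P.asIdeal m ≠ 0 := by
      rw [Ne, Ideal.Quotient.eq_zero_iff_mem]
      exact hm
    refine ⟨Ideal.Quotient.mk P.asIdeal a * (Ideal.Quotient.mk P.asIdeal m)⁻¹, ?_⟩
    rw [map_mul, map_inv₀, hψa, hψa]
    have h1 : ph O ι m * ⟨ι x, hx⟩ = ph O ι a := by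
      apply Subtype.ext
      change ι (algebraMap (𝓞 K) K m) * ι x = ι (algebraMap (𝓞 K) K a)
      rw [← map_mul, ha]
    rw [← h1, map_mul]
    have h2 : IsLocalRing.residue O (ph O ι m) ≠ 0 := by
      rw [← hψa]
      exact (map_ne_zero ψ).2 hm0
    field_simp
  have hmd : md P.asIdeal f = md P.asIdeal ρ := by
    ext i
    have := hz i
    rw [coeff_map, coeff_map]
    rw [coeff_sub] at this
    exact Ideal.Quotient.eq.2 this
  have hfd : f.natDegree = n := by
    have h1 : (md P.asIdeal f).natDegree = f.natDegree := hf.natDegree_map _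
    have h2 : (md P.asIdeal ρ).natDegree = ρ.natDegree := hρm.natDegree_map _
    rw [← h1, hmd, h2, hρd]
  refine ⟨f.map (ph O ι), hf.map _, ?_, ?_, ?_⟩
  · rw [hf.natDegree_map, hfd]
  · change (f.map (ph O ι)).map (algebraMap O L) = (f.map (algebraMap (𝓞 K) K)).map ι
    rw [Polynomial.map_map, Polynomial.map_map]
    rfl
  · have h1 : rd O (f.map (ph O ι)) = (md P.asIdeal f).map ψ := by
      change (f.map (ph O ι)).map (IsLocalRing.residue O) =
        (f.map (Ideal.Quotient.mk P.asIdeal)).map ψ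
      rw [Polynomial.map_map, Polynomial.map_map]
      rfl
    rw [h1, hmd]
    exact (MulEquiv.irreducible_iff (Polynomial.mapEquiv (RingEquiv.ofBijective ψ hb))).2 hρi

end Pool.NF
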