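import Pool.Agent.H66.NF.U
import Pool.Agent.H70.HYP.NMU

/-!
# NF, IDXN: the index of the classes with `Loc2`
-/

set_option autoImplicit false
set_option linter.unusedSectionVars false
set_option linter.style.haveILetI false

namespace Pool.NF

open Polynomial Matrix NumberField IsDedekindDomain Pool.HYP Pool.TOW Pool.AVS Pool.T1 Pool.PRK

namespace IDX63

theorem us_mul {R : Type} [CommRing R] {K : Type} [Field K] [Algebra R K] {P : Ideal R}
    {f : R[X]} {α β : K[X]} (h : US P f α) (h' : US P f β) : US P f (α * β) := by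
  obtain ⟨s, p, hs, hd, hc⟩ := h
  obtain ⟨s', p', hs', hd', hc'⟩ := h'
  refine ⟨s * s', p * p', hs.mul_left hs', ?_, ?_⟩
  · have e : α * β * (s * s') ^ 2 - fk K (p * p') =
        (α * s ^ 2 - fk K p) * (β * s' ^ 2) + fk K p * (β * s' ^ 2 - fk K p') := by
      simp only [fk, Polynomial.map_mul]; ring
    rw [e]
    exact dvd_add (hd.mul_right _) (hd'.mul_left _)
  · rw [md, Polynomial.map_mul]; exact hc.mul_left hc'

theorem us_one {R : Type} [CommRing R] {K : Type} [Field K] [Algebra R K] {P : Ideal R}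
    {f : R[X]} : US P f (1 : K[X]) := by
  refine ⟨1, 1, isCoprime_one_left, ?_, ?_⟩
  · simp
  · rw [md, Polynomial.map_one]; exact isCoprime_one_left

theorem nsq_mul {K : Type} [Field K] {f α β : K[X]} (h : NSq f α) (h' : NSq f β) :
    NSq f (α * β) := by
  unfold NSq at *
  rw [map_mul, map_mul]
  exact h.mul h'

theorem nsq_one {K : Type} [Field K] {f : K[X]} : NSq f (1 : K[X]) := by
  unfold NSq
  rw [map_one, map_one]
  exact IsSquare.one

section

variable {K : Type} [Field K] {f : K[X]}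

theorem cls_sq (ξ : (AdjoinRoot f)ˣ ⧸ SqG f) : ξ * ξ = 1 := by
  obtain ⟨u, rfl⟩ := QuotientGroup.mk_surjective ξ
  rw [← QuotientGroup.mk_mul, QuotientGroup.eq_one_iff]
  exact ⟨u, by simp [pow_two]⟩

theorem inv_eq_self (ξ : (AdjoinRoot f)ˣ ⧸ SqG f) : ξ⁻¹ = ξ :=
  inv_eq_of_mul_eq_one_left (cls_sq ξ)

/-- Two representatives of the same class. -/
theorem rep_rel {u u' : (AdjoinRoot f)ˣ} {α β : K[X]}
    (h : (QuotientGroup.mk u : (AdjoinRoot f)ˣ ⧸ SqG f) = QuotientGroup.mk u')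
    (ha : AdjoinRoot.mk f α = (u : AdjoinRoot f)) (hb : AdjoinRoot.mk f β = (u' : AdjoinRoot f)) :
    ∃ s : K[X], f ∣ β - α * s ^ 2 := by
  obtain ⟨v, hv⟩ := QuotientGroup.eq.mp h
  obtain ⟨s, hs⟩ := AdjoinRoot.mk_surjective (v : AdjoinRoot f)
  refine ⟨s, ?_⟩
  rw [← AdjoinRoot.mk_eq_mk, map_mul, map_pow, ha, hb, hs]
  have h2 : u' = u * v ^ 2 := by
    have h3 : v ^ 2 = u⁻¹ * u' := hv
    rw [h3, mul_inv_cancel_left]
  rw [h2]
  push_cast
  rfl

/-- `LocSol` depends only on the class. -/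
theorem locSol_congr {p q t : K[X]} (h : f ∣ p - q * t ^ 2) (hp : LocSol f p) : LocSol f q := by
  obtain ⟨u, w, s, hu, hc, hw, hd⟩ := hp
  refine ⟨u, w, t * s, hu, hc, hw, ?_⟩
  have e : (-1) ^ u.natDegree * u - q * (t * s) ^ 2 =
      ((-1) ^ u.natDegree * u - p * s ^ 2) + (p - q * t ^ 2) * s ^ 2 := by ring
  rw [e]
  exact dvd_add hd (h.mul_right _)

/-- `LocSol` over an extension. -/
theorem locSol_map {L : Type} [Field L] (σ : K →+* L) {p : K[X]} (hp : LocSol f p) :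
    LocSol (f.map σ) (p.map σ) := by
  obtain ⟨u, w, s, hu, hc, hw, hd⟩ := hp
  refine ⟨u.map σ, w.map σ, s.map σ, hu.map σ, hc.map (mapRingHom σ), ?_, ?_⟩
  · have h := Polynomial.map_dvd σ hw
    rwa [Polynomial.map_sub, Polynomial.map_pow] at h
  · have h := Polynomial.map_dvd σ hd
    rw [Polynomial.map_sub, Polynomial.map_mul, Polynomial.map_mul, Polynomial.map_pow,
      Polynomial.map_pow, Polynomial.map_neg, Polynomial.map_one] at h
    rw [natDegree_map]
    exact h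

/-- The map of the algebras. -/
noncomputable def am {L : Type} [Field L] (ι : K →+* L) (f : K[X]) :
    AdjoinRoot f →+* AdjoinRoot (f.map ι) :=
  AdjoinRoot.map ι f (f.map ι) dvd_rfl

theorem am_mk {L : Type} [Field L] (ι : K →+* L) (f p : K[X]) :
    am ι f (AdjoinRoot.mk f p) = AdjoinRoot.mk (f.map ι) (p.map ι) := by
  unfold am
  induction p using Polynomial.induction_on' with
  | add p q hp hq => rw [map_add, map_add, hp, hq, Polynomial.map_add, map_add]
  | monomial n a =>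
    rw [← C_mul_X_pow_eq_monomial, map_mul, map_pow, AdjoinRoot.mk_C, AdjoinRoot.mk_X, map_mul,
      map_pow, AdjoinRoot.map_root, AdjoinRoot.map_of, Polynomial.map_mul, Polynomial.map_pow,
      map_C, map_X, map_mul, map_pow, AdjoinRoot.mk_C, AdjoinRoot.mk_X]

/-- The map of the classes. -/
noncomputable def ph {L : Type} [Field L] (ι : K →+* L) (f : K[X]) :
    ((AdjoinRoot f)ˣ ⧸ SqG f) →* ((AdjoinRoot (f.map ι))ˣ ⧸ SqG (f.map ι)) :=
  QuotientGroup.map _ _ (Units.map (am ι f).toMonoidHom) (by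
    rintro x ⟨y, rfl⟩
    exact ⟨Units.map (am ι f).toMonoidHom y, by simp⟩)

theorem ph_mk {L : Type} [Field L] (ι : K →+* L) (f : K[X]) (u : (AdjoinRoot f)ˣ) :
    ph ι f (QuotientGroup.mk u) = QuotientGroup.mk (Units.map (am ι f).toMonoidHom u) := rfl

/-- The classes of square norm. -/
noncomputable def VG (f : K[X]) : Subgroup ((AdjoinRoot f)ˣ ⧸ SqG f) where
  carrier := VL f
  mul_mem' := by
    rintro x y ⟨u, rfl, hu⟩ ⟨v, rfl, hv⟩
    refine ⟨u * v, QuotientGroup.mk_mul _ _ _, ?_⟩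
    rw [Units.val_mul, map_mul]
    exact hu.mul hv
  one_mem' := ⟨1, rfl, by simp⟩
  inv_mem' := by
    intro x hx
    rw [inv_eq_self]
    exact hx

/-- The classes of divisors. -/
noncomputable def WG (f : K[X]) (h1 : 1 ∈ WL f) (h2 : ∀ x ∈ WL f, ∀ y ∈ WL f, x * y⁻¹ ∈ WL f) :
    Subgroup ((AdjoinRoot f)ˣ ⧸ SqG f) where
  carrier := WL f
  mul_mem' := by
    intro x y hx hy
    have := h2 x hx y hy
    rwa [inv_eq_self] at this
  one_mem' := h1
  inv_mem' := by
    intro x hx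
    rw [inv_eq_self]
    exact hx

end

theorem card_rel {G : Type} [Group G] (H K : Subgroup G) (h : H ≤ K) :
    Nat.card H * H.relIndex K = Nat.card K := by
  have := Subgroup.relIndex_mul_relIndex ⊥ H K bot_le h
  rwa [Subgroup.relIndex_bot_left, Subgroup.relIndex_bot_left] at this

/-- The group theory, one step. -/
theorem step {G G' : Type} [Group G] [Group G'] (φ : G →* G') (S : Subgroup G) (V W : Subgroup G')
    (hW : W ≤ V) (hS : S.map φ ≤ V) (N : ℕ) (hVf : Finite V) (hV : Nat.card V ≤ N ^ 2)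
    (hN : N ≤ Nat.card W) : Nat.card S ≤ N * Nat.card (W.comap φ ⊓ S : Subgroup G) := by
  have hpos : 0 < Nat.card V := Nat.card_pos
  have hN0 : 0 < N := by
    rcases Nat.eq_zero_or_pos N with h | h
    · rw [h] at hV
      omega
    · exact h
  have h1 : W.relIndex V * N ≤ N * N := by
    calc W.relIndex V * N ≤ W.relIndex V * Nat.card W := Nat.mul_le_mul_left _ hN
      _ = Nat.card V := by
        rw [mul_comm]
        exact card_rel _ _ hW
      _ ≤ N * N := by rw [← pow_two]; exact hV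
  have h2 : W.relIndex V ≤ N := Nat.le_of_mul_le_mul_right h1 hN0
  have hne : W.relIndex V ≠ 0 := by
    intro h
    have := card_rel _ _ hW
    rw [h, mul_zero] at this
    omega
  have h3 : (W.comap φ ⊓ S).relIndex S = W.relIndex (S.map φ) := by
    rw [Subgroup.inf_relIndex_right, Subgroup.relIndex_comap]
  have h4 : W.relIndex (S.map φ) ≤ W.relIndex V := Subgroup.relIndex_le_of_le_right hS hne
  have h5 := card_rel (W.comap φ ⊓ S) S inf_le_right
  rw [← h5, h3, mul_comm]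
  exact Nat.mul_le_mul_right _ (h4.trans h2)

/-- The local part at one prime above `2`. -/
theorem loc_part (hVCN : VCNStmt) (hWCN : WCNStmt) (hWVL : WVLStmt) (hADS : ADSStmt)
    (hCRD : CRDStmt) (hUSQ : USQStmt) (hKPH : KPHStmt) (hKPK : KPKStmt) (hPTS : PTSStmt)
    (hRDU : RDUStmt) (hMUL : MULStmt) (L : Type) [Field L] (O : ValuationSubring L)
    (hL : DyL L O) (fL : L[X]) (F : O[X]) (hF : F.Monic) (hFd : F.natDegree = 3)
    (hFf : oL O F = fL) (hFi : Irreducible (rd O F)) :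
    (VL fL).Finite ∧ (VL fL).ncard ≤ Nat.card (O ⧸ Ideal.span {(2 : O)}) ^ 2 ∧
      Nat.card (O ⧸ Ideal.span {(2 : O)}) ≤ (WL fL).ncard ∧ WL fL ⊆ VL fL ∧ 1 ∈ WL fL ∧
      ∀ x ∈ WL fL, ∀ y ∈ WL fL, x * y⁻¹ ∈ WL fL := by
  subst hFf
  obtain ⟨h1, h2⟩ := hVCN hADS hCRD hUSQ L O hL F hF hFd hFi
  have hi : Irreducible F := hF.irreducible_of_irreducible_map (IsLocalRing.residue O) F hFi
  have hiL : Irreducible (oL O F) :=
    (hF.irreducible_iff_irreducible_map_fraction_map (K := L)).1 hi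
  have hd : (oL O F).natDegree = 3 := by rw [← hFd]; exact hF.natDegree_map _
  obtain ⟨h3, h4, h5⟩ := hWVL hRDU hMUL L (oL O F) (hF.map _) hd hiL
  exact ⟨h1, h2, hWCN hKPH hKPK hPTS L O hL F hF hFd hFi (h1.subset h3), h3, h4, h5⟩

end IDX63

open IDX63 in
open Classical in
/-- **IDXN.** -/
theorem idxn : IDXNStmt := by
  intro hVCN hWCN hWVL hCMP2 hCPU hCPD hCPF hNP2 hADS hCRD hUSQ hKPH hKPK hPTS hRDU hMUL
    K _ _ D Y hD hY f hf hfin
  obtain ⟨hfm, hfd, -, -, hf'⟩ := hf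
  obtain ⟨-, -, hDT', hD2⟩ := hD
  choose L iL O ι hC hO using fun P : HeightOneSpectrum (𝓞 K) => hCMP2 K P
  set A : Finset (HeightOneSpectrum (𝓞 K)) := D.T'.filter fun P => (2 : 𝓞 K) ∈ P.asIdeal with hA
  have hAmem : ∀ P : HeightOneSpectrum (𝓞 K), P ∈ A ↔ (2 : 𝓞 K) ∈ P.asIdeal := by
    intro P
    rw [hA, Finset.mem_filter]
    exact ⟨fun h => h.2, fun h => ⟨hD2 P (Or.inl h), h⟩⟩
  have hfkm : (fk K f).Monic := hfm.map _
  -- the local part
  have hloc : ∀ P ∈ A, (VL ((fk K f).map (ι P))).Finite ∧ (VL ((fk K f).map (ι P))).ncard ≤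
      Nat.card (O P ⧸ Ideal.span {(2 : O P)}) ^ 2 ∧
      Nat.card (O P ⧸ Ideal.span {(2 : O P)}) ≤ (WL ((fk K f).map (ι P))).ncard ∧
      WL ((fk K f).map (ι P)) ⊆ VL ((fk K f).map (ι P)) ∧ 1 ∈ WL ((fk K f).map (ι P)) ∧
      ∀ x ∈ WL ((fk K f).map (ι P)), ∀ y ∈ WL ((fk K f).map (ι P)),
        x * y⁻¹ ∈ WL ((fk K f).map (ι P)) := by
    intro P hP
    have h2P := (hAmem P).1 hP
    have hPT := hD2 P (Or.inl h2P)
    obtain ⟨F, hF1, hF2, hF3, hF4⟩ :=
      hCPF K P (L P) (O P) (ι P) (hC P) (hO P) f (D.ρ P) 3 hfm (hDT' P hPT) (hf' P hPT)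
    have h2K : (2 : K) ≠ 0 := two_ne_zero
    have hDy : DyL (L P) (O P) := by
      refine ⟨(hC P).dvr, (hC P).complete, (hC P).fin, ?_, ?_⟩
      · have := (map_ne_zero (ι P)).2 h2K
        rwa [map_ofNat] at this
      · intro h
        have h3 : ι P (2 : K)⁻¹ ∈ O P := by rw [map_inv₀, map_ofNat]; exact h
        obtain ⟨m, hm, a, ha⟩ := (hO P _).1 h3
        apply hm
        have h4 : algebraMap (𝓞 K) K m = algebraMap (𝓞 K) K (a * 2) := by
          rw [map_mul, ← ha, mul_assoc, map_ofNat, inv_mul_cancel₀ h2K, mul_one]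
        rw [(IsFractionRing.injective (𝓞 K) K) h4]
        exact P.asIdeal.mul_mem_left a h2P
    exact loc_part hVCN hWCN hWVL hADS hCRD hUSQ hKPH hKPK hPTS hRDU hMUL (L P) (O P) hDy _ F
      hF1 hF2 hF3 hF4
  -- the group `RcG`
  let S : Subgroup ((AdjoinRoot (fk K f))ˣ ⧸ SqG (fk K f)) :=
    { carrier := RcG K D.T f
      mul_mem' := by
        rintro ξ ξ' ⟨u, α, hu, hα, hU⟩ ⟨u', α', hu', hα', hU'⟩
        refine ⟨u * u', α * α', ?_, ?_, hU.1.mul_left hU'.1, nsq_mul hU.2.1 hU'.2.1,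
          fun P hP => us_mul (hU.2.2 P hP) (hU'.2.2 P hP)⟩
        · rw [QuotientGroup.mk_mul, hu, hu']
        · rw [Units.val_mul, map_mul, hα, hα']
      one_mem' := ⟨1, 1, rfl, by simp, isCoprime_one_left, nsq_one, fun P _ => us_one⟩
      inv_mem' := by
        intro x hx
        rw [IDX63.inv_eq_self]
        exact hx }
  have hSc : Nat.card S = (RcG K D.T f).ncard := rfl
  have hSfin : Finite S := hfin
  -- the subgroups at the primes above `2`
  have hind : ∀ B : Finset (HeightOneSpectrum (𝓞 K)), B ⊆ A → ∃ S' : Subgroup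
      ((AdjoinRoot (fk K f))ˣ ⧸ SqG (fk K f)), S' ≤ S ∧ (∀ ξ ∈ S', ∀ P ∈ B,
        ph (ι P) (fk K f) ξ ∈ WL ((fk K f).map (ι P))) ∧
      Nat.card S ≤ (∏ P ∈ B, Nat.card (O P ⧸ Ideal.span {(2 : O P)})) * Nat.card S' := by
    intro B
    induction B using Finset.induction_on with
    | empty =>
      intro _
      exact ⟨S, le_rfl, by simp, by simp⟩
    | insert P B hPB ih =>
      intro hB
      obtain ⟨S', h1, h2, h3⟩ := ih ((Finset.subset_insert P B).trans hB)
      obtain ⟨g1, g2, g3, g4, g5, g6⟩ := hloc P (hB (Finset.mem_insert_self P B))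
      have hmap : S'.map (ph (ι P) (fk K f)) ≤ VG ((fk K f).map (ι P)) := by
        rintro x ⟨ξ, hξ, rfl⟩
        obtain ⟨u, α, rfl, hα, hU⟩ := h1 hξ
        refine ⟨Units.map (am (ι P) (fk K f)).toMonoidHom u, rfl, ?_⟩
        have e1 : ((Units.map (am (ι P) (fk K f)).toMonoidHom u : (AdjoinRoot _)ˣ) :
            AdjoinRoot ((fk K f).map (ι P))) =
            AdjoinRoot.mk ((fk K f).map (ι P)) (α.map (ι P)) := by
          rw [← am_mk, hα]
          rfl
        rw [e1, nmu.2.2.2 K (L P) (ι P) (fk K f) α hfkm]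
        exact hU.2.1.map (ι P)
      have hWV : WG _ g5 g6 ≤ VG ((fk K f).map (ι P)) := g4
      have hst := step (ph (ι P) (fk K f)) S' (VG ((fk K f).map (ι P))) (WG _ g5 g6) hWV hmap
        (Nat.card (O P ⧸ Ideal.span {(2 : O P)})) g1 g2 g3
      refine ⟨(WG _ g5 g6).comap (ph (ι P) (fk K f)) ⊓ S', inf_le_right.trans h1, ?_, ?_⟩
      · intro ξ hξ Q hQ
        rcases Finset.mem_insert.1 hQ with rfl | hQ
        · exact hξ.1
        · exact h2 ξ hξ.2 Q hQ
      · rw [Finset.prod_insert hPB]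
        calc Nat.card S ≤ (∏ P ∈ B, Nat.card (O P ⧸ Ideal.span {(2 : O P)})) * Nat.card S' := h3
          _ ≤ (∏ P ∈ B, Nat.card (O P ⧸ Ideal.span {(2 : O P)})) *
              (Nat.card (O P ⧸ Ideal.span {(2 : O P)}) * Nat.card _) :=
            Nat.mul_le_mul_left _ hst
          _ = _ := by ring
  obtain ⟨S', h1, h2, h3⟩ := hind A (Finset.Subset.refl A)
  have hnp := hNP2 K A hAmem L O ι (fun P _ => hC P) (fun P _ => hO P)
  rw [hnp, hSc] at h3
  refine h3.trans (Nat.mul_le_mul_left _ ?_)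
  have hsub : (S' : Set ((AdjoinRoot (fk K f))ˣ ⧸ SqG (fk K f))) ⊆ RcL K D.T f := by
    intro ξ hξ
    obtain ⟨u, α, hu, hα, hU⟩ := h1 hξ
    refine ⟨u, α, hu, hα, hU, ?_⟩
    intro L' _ O' ι' hC' h2'
    obtain ⟨P, hPO, hP2⟩ := hCPD K L' O' ι' hC'
    have hPA : P ∈ A := (hAmem P).2 (hP2.2 h2')
    obtain ⟨v, p, hv, hp, hlp⟩ := h2 ξ hξ P hPA
    obtain ⟨σ, hσ⟩ := hCPU K (L P) (O P) (ι P) L' O' ι' (hC P) hC'
      (fun x => (hO P x).trans (hPO x).symm)
    have e1 : AdjoinRoot.mk ((fk K f).map (ι P)) (α.map (ι P)) =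
        ((Units.map (am (ι P) (fk K f)).toMonoidHom u : (AdjoinRoot _)ˣ) :
          AdjoinRoot ((fk K f).map (ι P))) := by
      rw [← am_mk, hα]
      rfl
    rw [← hu, ph_mk] at hv
    obtain ⟨t, ht⟩ := rep_rel hv.symm e1 hp
    have h5 := locSol_map σ (locSol_congr ht hlp)
    have hσc : σ.comp (ι P) = ι' := RingHom.ext hσ
    have e2 : ((fk K f).map (ι P)).map σ = (fk K f).map ι' := by
      rw [Polynomial.map_map (ι P) σ (fk K f), hσc]
    have e3 : (α.map (ι P)).map σ = α.map ι' := by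
      rw [Polynomial.map_map (ι P) σ α, hσc]
    rw [e2, e3] at h5
    exact h5
  have hLR : RcL K D.T f ⊆ RcG K D.T f := by
    rintro ξ ⟨u, α, hu, hα, hU, -⟩
    exact ⟨u, α, hu, hα, hU⟩
  calc Nat.card S' = (S' : Set ((AdjoinRoot (fk K f))ˣ ⧸ SqG (fk K f))).ncard := rfl
    _ ≤ (RcL K D.T f).ncard := Set.ncard_le_ncard hsub (hfin.subset hLR)

end Pool.NF
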